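import Pool.Agent.X193.CBase
set_option autoImplicit false

namespace Pool.Agent.X193.CB

attribute [local instance 100] LieRing.ofAssociativeRing LieAlgebra.ofAssociativeAlgebra

/-- Images of the generators in the restricted enveloping algebra. -/
noncomputable def q (v : H) : u := RingQuot.mkAlgHom (ZMod 3) rel (UniversalEnvelopingAlgebra.ι (ZMod 3) v)

theorem q_cube (v : H) : q v ^ 3 = q (f v) := by
  unfold q
  rw [← map_pow]
  exact RingQuot.mkAlgHom_rel (ZMod 3) ⟨v, rfl, rfl⟩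

theorem q_lie (v w : H) : q ⁅v, w⁆ = q v * q w - q w * q v := by
  unfold q
  rw [iota_comm, map_sub, map_mul, map_mul]

theorem q_zero : q 0 = 0 := by
  unfold q
  rw [map_zero, map_zero]

theorem q_neg (v : H) : q (-v) = - q v := by
  unfold q
  rw [map_neg, map_neg]

noncomputable def x : u := q hx
noncomputable def y : u := q hy
noncomputable def z : u := q hz

theorem x3 : x ^ 3 = 0 := by
  rw [x, q_cube, ← q_zero]; rfl
theorem y3 : y ^ 3 = 0 := by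
  rw [y, q_cube, ← q_zero]; rfl
theorem z3 : z ^ 3 = z := by
  rw [z, q_cube]; rfl
theorem yx : y * x = x * y + z := by
  have h : q ⁅hy, hx⁆ = z := by
    unfold z; congr 1
  rw [q_lie] at h
  change y * x - x * y = z at h
  rw [← h]; abel
theorem zx : z * x = x * z := by
  have h : q ⁅hz, hx⁆ = 0 := by
    rw [← q_zero]; congr 1
  rw [q_lie] at h
  exact sub_eq_zero.1 h
theorem zy : z * y = y * z := by
  have h : q ⁅hz, hy⁆ = 0 := by
    rw [← q_zero]; congr 1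
  rw [q_lie] at h
  exact sub_eq_zero.1 h

/-- The abstract computation. -/
theorem key {A : Type*} [Ring A] [Algebra (ZMod 3) A] (x y z : A) (x3 : x ^ 3 = 0) (y3 : y ^ 3 = 0)
    (z3 : z ^ 3 = z) (yx : y * x = x * y + z) (zx : z * x = x * z) (zy : z * y = y * z) :
    (z ^ 2 * x ^ 2) * (- (z ^ 2 * y ^ 2)) * (z ^ 2 * x ^ 2) = z ^ 2 * x ^ 2 ∧
    (- (z ^ 2 * y ^ 2)) * (z ^ 2 * x ^ 2) * (- (z ^ 2 * y ^ 2)) = - (z ^ 2 * y ^ 2) ∧
    (z ^ 2 * x ^ 2) * (z ^ 2 * x ^ 2) = 0 ∧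
    (- (z ^ 2 * y ^ 2)) * (- (z ^ 2 * y ^ 2)) = 0 := by
  have cx : Commute (z ^ 2) (x ^ 2) := Commute.pow_pow (show Commute z x from zx) 2 2
  have cy : Commute (z ^ 2) (y ^ 2) := Commute.pow_pow (show Commute z y from zy) 2 2
  have z4 : z ^ 2 * z ^ 2 = z ^ 2 := by
    calc z ^ 2 * z ^ 2 = z ^ 3 * z := by noncomm_ring
      _ = z ^ 2 := by rw [z3, sq]
  have x4 : x ^ 2 * x ^ 2 = 0 := by
    calc x ^ 2 * x ^ 2 = x ^ 3 * x := by noncomm_ring
      _ = 0 := by rw [x3, zero_mul]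
  have y4 : y ^ 2 * y ^ 2 = 0 := by
    calc y ^ 2 * y ^ 2 = y ^ 3 * y := by noncomm_ring
      _ = 0 := by rw [y3, zero_mul]
  have yx2 : y * x ^ 2 = x ^ 2 * y + 2 • (z * x) := by
    calc y * x ^ 2 = (y * x) * x := by noncomm_ring
      _ = (x * y + z) * x := by rw [yx]
      _ = x * (y * x) + z * x := by noncomm_ring
      _ = x * (x * y + z) + z * x := by rw [yx]
      _ = x * x * y + (x * z + z * x) := by noncomm_ring
      _ = x ^ 2 * y + 2 • (z * x) := by rw [← zx, sq, two_nsmul]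
  have y2x2 : y ^ 2 * x ^ 2 = x ^ 2 * y ^ 2 + 4 • (z * x * y) + 2 • z ^ 2 := by
    calc y ^ 2 * x ^ 2 = y * (y * x ^ 2) := by noncomm_ring
      _ = y * (x ^ 2 * y + 2 • (z * x)) := by rw [yx2]
      _ = y * x ^ 2 * y + 2 • ((y * z) * x) := by noncomm_ring
      _ = (x ^ 2 * y + 2 • (z * x)) * y + 2 • ((z * y) * x) := by rw [yx2, zy]
      _ = x ^ 2 * y ^ 2 + 2 • (z * x * y) + 2 • (z * (y * x)) := by noncomm_ring
      _ = x ^ 2 * y ^ 2 + 4 • (z * x * y) + 2 • z ^ 2 := by rw [yx]; noncomm_ring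
  have xyx : x ^ 2 * y ^ 2 * x ^ 2 = 2 • (z ^ 2 * x ^ 2) := by
    rw [mul_assoc, y2x2]
    have e1 : x ^ 2 * (x ^ 2 * y ^ 2 + 4 • (z * x * y) + 2 • z ^ 2) =
        (x ^ 2 * x ^ 2) * y ^ 2 + 4 • ((x ^ 2 * z) * x * y) + 2 • (x ^ 2 * z ^ 2) := by
      noncomm_ring
    have e2 : x ^ 2 * z = z * x ^ 2 := ((Commute.pow_right (show Commute z x from zx) 2).eq).symm
    rw [e1, x4, e2, zero_mul, cx.eq.symm]
    have e3 : z * x ^ 2 * x * y = z * x ^ 3 * y := by noncomm_ring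
    rw [e3, x3]
    simp
  have yxy : y ^ 2 * x ^ 2 * y ^ 2 = 2 • (z ^ 2 * y ^ 2) := by
    rw [y2x2]
    have e1 : (x ^ 2 * y ^ 2 + 4 • (z * x * y) + 2 • z ^ 2) * y ^ 2 =
        x ^ 2 * (y ^ 2 * y ^ 2) + 4 • (z * x * y ^ 3) + 2 • (z ^ 2 * y ^ 2) := by
      noncomm_ring
    rw [e1, y4, y3]
    simp
  have m2 : ∀ a : A, - ((2 : ℕ) • a) = a := by
    intro a
    have h := three_nsmul_zero a
    rw [show (3 : ℕ) = 2 + 1 from rfl, add_smul, one_smul] at h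
    exact (eq_neg_of_add_eq_zero_right h).symm
  refine ⟨?_, ?_, ?_, ?_⟩
  · calc (z ^ 2 * x ^ 2) * (- (z ^ 2 * y ^ 2)) * (z ^ 2 * x ^ 2)
        = - (z ^ 2 * (x ^ 2 * z ^ 2) * y ^ 2 * z ^ 2 * x ^ 2) := by noncomm_ring
      _ = - (z ^ 2 * z ^ 2 * x ^ 2 * (y ^ 2 * z ^ 2) * x ^ 2) := by
          rw [← cx.eq]; noncomm_ring
      _ = - (z ^ 2 * z ^ 2 * (x ^ 2 * z ^ 2) * y ^ 2 * x ^ 2) := by
          rw [← cy.eq]; noncomm_ring
      _ = - (z ^ 2 * z ^ 2 * z ^ 2 * (x ^ 2 * y ^ 2 * x ^ 2)) := by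
          rw [← cx.eq]; noncomm_ring
      _ = - (2 • (z ^ 2 * z ^ 2 * x ^ 2)) := by
          rw [z4, z4, xyx, mul_smul_comm, ← mul_assoc, z4]
      _ = z ^ 2 * x ^ 2 := by rw [m2, z4]
  · calc (- (z ^ 2 * y ^ 2)) * (z ^ 2 * x ^ 2) * (- (z ^ 2 * y ^ 2))
        = z ^ 2 * (y ^ 2 * z ^ 2) * x ^ 2 * z ^ 2 * y ^ 2 := by noncomm_ring
      _ = z ^ 2 * z ^ 2 * y ^ 2 * (x ^ 2 * z ^ 2) * y ^ 2 := by
          rw [← cy.eq]; noncomm_ring
      _ = z ^ 2 * z ^ 2 * (y ^ 2 * z ^ 2) * x ^ 2 * y ^ 2 := by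
          rw [← cx.eq]; noncomm_ring
      _ = z ^ 2 * z ^ 2 * z ^ 2 * (y ^ 2 * x ^ 2 * y ^ 2) := by
          rw [← cy.eq]; noncomm_ring
      _ = 2 • (z ^ 2 * z ^ 2 * y ^ 2) := by
          rw [z4, z4, yxy, mul_smul_comm, ← mul_assoc, z4]
      _ = - (z ^ 2 * y ^ 2) := by
          rw [z4]
          have := m2 (z ^ 2 * y ^ 2)
          exact neg_eq_iff_eq_neg.1 this
  · calc (z ^ 2 * x ^ 2) * (z ^ 2 * x ^ 2) = z ^ 2 * (x ^ 2 * z ^ 2) * x ^ 2 := by noncomm_ring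
      _ = z ^ 2 * z ^ 2 * (x ^ 2 * x ^ 2) := by rw [← cx.eq]; noncomm_ring
      _ = 0 := by rw [x4, mul_zero]
  · calc (- (z ^ 2 * y ^ 2)) * (- (z ^ 2 * y ^ 2)) = z ^ 2 * (y ^ 2 * z ^ 2) * y ^ 2 := by noncomm_ring
      _ = z ^ 2 * z ^ 2 * (y ^ 2 * y ^ 2) := by rw [← cy.eq]; noncomm_ring
      _ = 0 := by rw [y4, mul_zero]

/-- The non-unital homomorphism from two by two matrices attached to a pair of partial
isometries-like elements. -/
noncomputable def emb {A : Type*} [Ring A] [Algebra (ZMod 3) A] (X Y : A)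
    (hX : X * X = 0) (hY : Y * Y = 0) (h1 : X * Y * X = X) (h2 : Y * X * Y = Y) :
    Matrix (Fin 2) (Fin 2) (ZMod 3) →ₙₐ[ZMod 3] A where
  toFun M := M 0 0 • (X * Y) + M 0 1 • X + M 1 0 • Y + M 1 1 • (Y * X)
  map_smul' c M := by
    simp only [Matrix.smul_apply, smul_eq_mul, MonoidHom.id_apply, mul_smul, smul_add]
  map_zero' := by simp
  map_add' M N := by
    simp only [Matrix.add_apply, add_smul]
    abel
  map_mul' M N := by
    have h3 : X * (Y * X) = X := by rw [← mul_assoc, h1]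
    have h4 : Y * (X * Y) = Y := by rw [← mul_assoc, h2]
    have h5 : X * Y * (X * Y) = X * Y := by rw [← mul_assoc, h1]
    have h6 : Y * X * (Y * X) = Y * X := by rw [← mul_assoc, h2]
    have h7 : X * Y * (Y * X) = 0 := by rw [mul_assoc, ← mul_assoc Y, hY]; simp
    have h8 : Y * X * (X * Y) = 0 := by rw [mul_assoc, ← mul_assoc X, hX]; simp
    have h9 : X * Y * Y = 0 := by rw [mul_assoc, hY, mul_zero]
    have h10 : Y * X * X = 0 := by rw [mul_assoc, hX, mul_zero]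
    have h11 : X * (X * Y) = 0 := by rw [← mul_assoc, hX, zero_mul]
    have h12 : Y * (Y * X) = 0 := by rw [← mul_assoc, hY, zero_mul]
    simp only [Matrix.mul_apply, Fin.sum_univ_two, mul_add, add_mul, smul_mul_smul_comm, h1, h2, h3,
      h4, h5, h6, h7, h8, h9, h10, h11, h12, hX, hY, smul_zero, add_smul]
    abel

theorem emb_apply {A : Type*} [Ring A] [Algebra (ZMod 3) A] (X Y : A)
    (hX : X * X = 0) (hY : Y * Y = 0) (h1 : X * Y * X = X) (h2 : Y * X * Y = Y)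
    (M : Matrix (Fin 2) (Fin 2) (ZMod 3)) : emb X Y hX hY h1 h2 M =
      M 0 0 • (X * Y) + M 0 1 • X + M 1 0 • Y + M 1 1 • (Y * X) := rfl

noncomputable def Φ : Matrix (Fin 2) (Fin 2) (ZMod 3) →ₙₐ[ZMod 3] u :=
  emb (z ^ 2 * x ^ 2) (- (z ^ 2 * y ^ 2)) (key x y z x3 y3 z3 yx zx zy).2.2.1
    (key x y z x3 y3 z3 yx zx zy).2.2.2 (key x y z x3 y3 z3 yx zx zy).1
    (key x y z x3 y3 z3 yx zx zy).2.1

/-- The subalgebra, a copy of the two by two matrices. -/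
noncomputable def R : NonUnitalSubalgebra (ZMod 3) u := NonUnitalAlgHom.range Φ

theorem Φ_pow (M : Matrix (Fin 2) (Fin 2) (ZMod 3)) (n : ℕ) : Φ M ^ (n + 1) = Φ (M ^ (n + 1)) := by
  induction n with
  | zero => simp
  | succ n ih => rw [pow_succ, ih, ← map_mul, ← pow_succ]

theorem pow_id : ∀ M : Matrix (Fin 2) (Fin 2) (ZMod 3), M ^ 2 = M ^ 26 := by
  have h8 : ∀ M : Matrix (Fin 2) (Fin 2) (ZMod 3),
      (M * M) = (M * M) * ((M * M) * (M * M)) * ((M * M) * (M * M)) * ((M * M) * (M * M)) *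
        ((M * M) * (M * M)) * ((M * M) * (M * M)) * ((M * M) * (M * M)) := by
    decide +kernel
  intro M
  have h := h8 M
  calc M ^ 2 = M * M := sq M
    _ = _ := h
    _ = M ^ 26 := by
      simp only [← sq, ← pow_mul, ← pow_add]
      norm_num

/-! ### The representation -/

def MX : Matrix (Fin 3) (Fin 3) (ZMod 3) := !![0, 0, 0; 1, 0, 0; 0, 1, 0]
def MY : Matrix (Fin 3) (Fin 3) (ZMod 3) := !![0, 1, 0; 0, 0, 2; 0, 0, 0]

def rho (v : H) : Matrix (Fin 3) (Fin 3) (ZMod 3) :=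
  v.1 • MX + v.2.1 • MY + v.2.2 • (1 : Matrix (Fin 3) (Fin 3) (ZMod 3))

theorem MYX : MY * MX - MX * MY = 1 := by decide

theorem rho_cube (v : H) : rho v ^ 3 = rho (f v) := by
  have key : ∀ a b c : ZMod 3, (a • MX + b • MY + c • (1 : Matrix (Fin 3) (Fin 3) (ZMod 3))) ^ 3 =
      c • (1 : Matrix (Fin 3) (Fin 3) (ZMod 3)) := by
    decide +kernel
  rw [rho, key, rho]
  change _ = (0 : ZMod 3) • MX + (0 : ZMod 3) • MY + _
  rw [zero_smul, zero_smul, zero_add, zero_add]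
  rfl

def rhoLie : H →ₗ⁅ZMod 3⁆ Matrix (Fin 3) (Fin 3) (ZMod 3) where
  toFun := rho
  map_add' v w := by
    change (v.1 + w.1) • MX + (v.2.1 + w.2.1) • MY + (v.2.2 + w.2.2) • 1 = rho v + rho w
    unfold rho
    simp only [add_smul]
    abel
  map_smul' c v := by
    change (c * v.1) • MX + (c * v.2.1) • MY + (c * v.2.2) • 1 = c • rho v
    unfold rho
    simp only [smul_add, mul_smul]
  map_lie' := by
    intro v w
    change (0 : ZMod 3) • MX + (0 : ZMod 3) • MY + (w.1 * v.2.1 - v.1 * w.2.1) • 1 =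
      rho v * rho w - rho w * rho v
    have key : ∀ a b c a' b' c' : ZMod 3,
        (0 : ZMod 3) • MX + (0 : ZMod 3) • MY +
          (a' * b - a * b') • (1 : Matrix (Fin 3) (Fin 3) (ZMod 3)) =
        (a • MX + b • MY + c • (1 : Matrix (Fin 3) (Fin 3) (ZMod 3))) *
          (a' • MX + b' • MY + c' • (1 : Matrix (Fin 3) (Fin 3) (ZMod 3))) -
        (a' • MX + b' • MY + c' • (1 : Matrix (Fin 3) (Fin 3) (ZMod 3))) *
          (a • MX + b • MY + c • (1 : Matrix (Fin 3) (Fin 3) (ZMod 3))) := by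
      decide +kernel
    exact key _ _ _ _ _ _

noncomputable def rep : u →ₐ[ZMod 3] Matrix (Fin 3) (Fin 3) (ZMod 3) :=
  RingQuot.liftAlgHom (ZMod 3) ⟨UniversalEnvelopingAlgebra.lift (ZMod 3) rhoLie, by
    rintro a b ⟨v, rfl, rfl⟩
    rw [map_pow, UniversalEnvelopingAlgebra.lift_ι_apply, UniversalEnvelopingAlgebra.lift_ι_apply]
    exact rho_cube v⟩

theorem rep_q (v : H) : rep (q v) = rho v := by
  unfold rep q
  rw [RingQuot.liftAlgHom_mkAlgHom_apply]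
  exact UniversalEnvelopingAlgebra.lift_ι_apply _ _ _

theorem rep_x : rep x = MX := by
  rw [x, rep_q]; decide
theorem rep_y : rep y = MY := by
  rw [y, rep_q]; decide
theorem rep_z : rep z = 1 := by
  rw [z, rep_q]; decide

/-! ### The three facts -/

theorem pi_R : ∃ m : ℕ, ∃ φ : FreeAlgebra (ZMod 3) (Fin m), φ ≠ 0 ∧
    ∀ r : Fin m → u, (∀ i, r i ∈ R) → FreeAlgebra.lift (ZMod 3) r φ = 0 := by
  refine ⟨1, FreeAlgebra.ι (ZMod 3) 0 ^ 2 - FreeAlgebra.ι (ZMod 3) 0 ^ 26, ?_, ?_⟩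
  · intro h
    have h2 := congrArg (FreeAlgebra.lift (ZMod 3)
      (fun _ : Fin 1 => (Polynomial.X : Polynomial (ZMod 3)))) h
    rw [map_sub, map_pow, map_pow, FreeAlgebra.lift_ι_apply, map_zero] at h2
    have h3 := congrArg (fun P => Polynomial.coeff P 2) h2
    simp [Polynomial.coeff_X_pow] at h3
  · intro r hr
    obtain ⟨M, hM⟩ := hr 0
    rw [map_sub, map_pow, map_pow, FreeAlgebra.lift_ι_apply, ← hM]
    change Φ M ^ (1 + 1) - Φ M ^ (25 + 1) = 0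
    rw [Φ_pow, Φ_pow, sub_eq_zero]
    exact congrArg _ (pow_id M)

theorem upper : ∃ t : ℕ, 1 ≤ t ∧
        ∀ r : Fin (2 * 2) → u,
          (∀ i, r i ∈ R) →
          (∑ σ : Equiv.Perm (Fin (2 * 2)),
            ((Equiv.Perm.sign σ : ℤˣ) : ℤ) • (List.ofFn fun i => r (σ i)).prod) ^ t = 0 := by
  refine ⟨1, le_refl _, ?_⟩
  intro r hr
  choose M hM using hr
  have hM' : ∀ i, Φ (M i) = r i := hM
  rw [pow_one, sum_perm4]
  simp only [← hM', ← map_mul, ← map_sub, ← map_add]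
  have h := s4_mat M
  rw [sum_perm4] at h
  rw [h, map_zero]

theorem sum_perm2 {A : Type*} [Ring A] (r : Fin (2 * 1) → A) :
    (∑ σ : Equiv.Perm (Fin (2 * 1)),
        ((Equiv.Perm.sign σ : ℤˣ) : ℤ) • (List.ofFn fun i => r (σ i)).prod) =
      r 0 * r 1 - r 1 * r 0 := by
  change (∑ σ : Equiv.Perm (Fin 2), _) = _
  rw [show (Finset.univ : Finset (Equiv.Perm (Fin 2))) = {1, Equiv.swap 0 1} from by decide]
  rw [Finset.sum_pair (by decide)]
  simp [List.ofFn_succ, sub_eq_add_neg]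

theorem lower : ∀ m : ℕ, 1 ≤ m → m < 2 →
        ¬ ∃ t : ℕ, 1 ≤ t ∧
          ∀ r : Fin (2 * m) → u,
            (∀ i, r i ∈ R) →
            (∑ σ : Equiv.Perm (Fin (2 * m)),
              ((Equiv.Perm.sign σ : ℤˣ) : ℤ) • (List.ofFn fun i => r (σ i)).prod) ^ t = 0 := by
  intro m hm1 hm2
  obtain rfl : m = 1 := by omega
  rintro ⟨t, ht, h⟩
  have h1 := h ![Φ !![0, 1; 0, 0], Φ !![0, 0; 1, 0]] (by
    intro i
    fin_cases i
    · exact ⟨_, rfl⟩
    · exact ⟨_, rfl⟩)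
  rw [sum_perm2] at h1
  have h2 := congrArg rep h1
  have e1 : rep (Φ !![0, 1; 0, 0]) = !![0, 0, 0; 0, 0, 0; 1, 0, 0] := by
    unfold Φ
    rw [emb_apply]
    simp only [Matrix.of_apply, Matrix.cons_val', Matrix.cons_val_zero, Matrix.cons_val_one,
      Matrix.cons_val_fin_one, zero_smul, one_smul, zero_add, add_zero]
    rw [map_mul, map_pow, map_pow, rep_x, rep_z]
    decide
  have e2 : rep (Φ !![0, 0; 1, 0]) = !![0, 0, 1; 0, 0, 0; 0, 0, 0] := by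
    unfold Φ
    rw [emb_apply]
    simp only [Matrix.of_apply, Matrix.cons_val', Matrix.cons_val_zero, Matrix.cons_val_one,
      Matrix.cons_val_fin_one, zero_smul, one_smul, zero_add, add_zero]
    rw [map_neg, map_mul, map_pow, map_pow, rep_y, rep_z]
    decide
  rw [map_pow, map_sub, map_mul, map_mul, map_zero] at h2
  simp only [Matrix.cons_val_zero, Matrix.cons_val_one] at h2
  rw [e1, e2] at h2
  have e3 : !![0, 0, 0; 0, 0, 0; 1, 0, 0] * !![0, 0, 1; 0, 0, 0; 0, 0, 0] -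
    !![0, 0, 1; 0, 0, 0; 0, 0, 0] * !![0, 0, 0; 0, 0, 0; 1, 0, 0] =
      (Matrix.diagonal ![2, 0, 1] : Matrix (Fin 3) (Fin 3) (ZMod 3)) := by decide
  rw [e3, Matrix.diagonal_pow] at h2
  have h3 := congrFun (congrFun h2 2) 2
  simp at h3

end Pool.Agent.X193.CB
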