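import Mathlib
set_option autoImplicit false

namespace Pool.Agent.X193.CB

attribute [local instance 100] LieRing.ofAssociativeRing LieAlgebra.ofAssociativeAlgebra

theorem sum_perm4 {A : Type*} [Ring A] (r : Fin (2 * 2) → A) :
    (∑ σ : Equiv.Perm (Fin (2 * 2)),
        ((Equiv.Perm.sign σ : ℤˣ) : ℤ) • (List.ofFn fun i => r (σ i)).prod) =
      r 0 * (r 1 * (r 2 * r 3)) - r 0 * (r 1 * (r 3 * r 2)) - r 0 * (r 2 * (r 1 * r 3)) + r 0 * (r 2 * (r 3 * r 1)) + r 0 * (r 3 * (r 1 * r 2)) - r 0 * (r 3 * (r 2 * r 1)) - r 1 * (r 0 * (r 2 * r 3)) + r 1 * (r 0 * (r 3 * r 2)) + r 1 * (r 2 * (r 0 * r 3)) - r 1 * (r 2 * (r 3 * r 0)) - r 1 * (r 3 * (r 0 * r 2)) + r 1 * (r 3 * (r 2 * r 0)) + r 2 * (r 0 * (r 1 * r 3)) - r 2 * (r 0 * (r 3 * r 1)) - r 2 * (r 1 * (r 0 * r 3)) + r 2 * (r 1 * (r 3 * r 0)) + r 2 * (r 3 * (r 0 * r 1)) - r 2 * (r 3 * (r 1 * r 0)) - r 3 * (r 0 * (r 1 * r 2)) + r 3 * (r 0 * (r 2 * r 1))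 + r 3 * (r 1 * (r 0 * r 2)) - r 3 * (r 1 * (r 2 * r 0)) - r 3 * (r 2 * (r 0 * r 1)) + r 3 * (r 2 * (r 1 * r 0)) := by
  have key : (Finset.univ : Finset (Equiv.Perm (Fin 4))).val.map
      (fun σ => (((Equiv.Perm.sign σ : ℤˣ) : ℤ), σ 0, σ 1, σ 2, σ 3)) =
      ↑([(1, 0, 1, 2, 3), (-1, 0, 1, 3, 2), (-1, 0, 2, 1, 3), (1, 0, 2, 3, 1), (1, 0, 3, 1, 2), (-1, 0, 3, 2, 1), (-1, 1, 0, 2, 3), (1, 1, 0, 3, 2), (1, 1, 2, 0, 3), (-1, 1, 2, 3, 0), (-1, 1, 3, 0, 2), (1, 1, 3, 2, 0), (1, 2, 0, 1, 3), (-1, 2, 0, 3, 1), (-1, 2, 1, 0, 3), (1, 2, 1, 3, 0), (1, 2, 3, 0, 1), (-1, 2, 3, 1, 0), (-1, 3, 0, 1, 2), (1, 3, 0, 2, 1), (1, 3, 1, 0, 2), (-1, 3, 1, 2, 0), (-1, 3, 2, 0, 1), (1, 3, 2, 1, 0)] : List (ℤ × Fin 4 × Fin 4 × Fin 4 × Fin 4)) := by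
    decide +kernel
  have h2 : (∑ σ : Equiv.Perm (Fin (2 * 2)),
        ((Equiv.Perm.sign σ : ℤˣ) : ℤ) • (List.ofFn fun i => r (σ i)).prod) =
      (((Finset.univ : Finset (Equiv.Perm (Fin 4))).val.map
      (fun σ => (((Equiv.Perm.sign σ : ℤˣ) : ℤ), σ 0, σ 1, σ 2, σ 3))).map
        (fun t => t.1 • (r t.2.1 * (r t.2.2.1 * (r t.2.2.2.1 * r t.2.2.2.2))))).sum := by
    rw [Multiset.map_map]
    change _ = ∑ σ : Equiv.Perm (Fin 4), _
    refine Finset.sum_congr rfl fun σ _ => ?_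
    simp [List.ofFn_succ]
  rw [h2, key]
  simp only [Multiset.map_coe, Multiset.sum_coe, List.map_cons, List.map_nil, List.sum_cons,
    List.sum_nil, one_smul, neg_smul]
  abel

/-- The standard polynomial of degree four vanishes on two by two matrices. -/
theorem s4_mat {P : Type*} [CommRing P] (r : Fin (2 * 2) → Matrix (Fin 2) (Fin 2) P) :
    (∑ σ : Equiv.Perm (Fin (2 * 2)),
        ((Equiv.Perm.sign σ : ℤˣ) : ℤ) • (List.ofFn fun i => r (σ i)).prod) = 0 := by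
  rw [sum_perm4]
  ext i j
  fin_cases i <;> fin_cases j <;>
  · simp only [Matrix.mul_apply, Fin.sum_univ_two, Matrix.sub_apply, Matrix.add_apply,
      Matrix.zero_apply, Fin.zero_eta, Fin.mk_one, Fin.isValue]
    ring

/-- The underlying space of the Heisenberg Lie algebra over the field with three elements. -/
def H : Type := ZMod 3 × ZMod 3 × ZMod 3

instance : AddCommGroup H := inferInstanceAs (AddCommGroup (ZMod 3 × ZMod 3 × ZMod 3))
instance : Module (ZMod 3) H := inferInstanceAs (Module (ZMod 3) (ZMod 3 × ZMod 3 × ZMod 3))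

instance : LieRing H where
  bracket u v := ((0, 0, v.1 * u.2.1 - u.1 * v.2.1) : ZMod 3 × ZMod 3 × ZMod 3)
  add_lie u v w := by
    refine Prod.ext ?_ (Prod.ext ?_ ?_)
    · change (0 : ZMod 3) = 0 + 0
      simp
    · change (0 : ZMod 3) = 0 + 0
      simp
    · change w.1 * (u.2.1 + v.2.1) - (u.1 + v.1) * w.2.1 =
        (w.1 * u.2.1 - u.1 * w.2.1) + (w.1 * v.2.1 - v.1 * w.2.1)
      ring
  lie_add u v w := by
    refine Prod.ext ?_ (Prod.ext ?_ ?_)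
    · change (0 : ZMod 3) = 0 + 0
      simp
    · change (0 : ZMod 3) = 0 + 0
      simp
    · change (v.1 + w.1) * u.2.1 - u.1 * (v.2.1 + w.2.1) =
        (v.1 * u.2.1 - u.1 * v.2.1) + (w.1 * u.2.1 - u.1 * w.2.1)
      ring
  lie_self u := by
    refine Prod.ext rfl (Prod.ext rfl ?_)
    change u.1 * u.2.1 - u.1 * u.2.1 = 0
    ring
  leibniz_lie u v w := by
    refine Prod.ext ?_ (Prod.ext ?_ ?_)
    · change (0 : ZMod 3) = 0 + 0
      simp
    · change (0 : ZMod 3) = 0 + 0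
      simp
    · change (0 : ZMod 3) * u.2.1 - u.1 * 0 =
        (w.1 * 0 - 0 * w.2.1) + (0 * v.2.1 - v.1 * 0)
      ring

theorem lie_def (u v : H) :
    ⁅u, v⁆ = ((0, 0, v.1 * u.2.1 - u.1 * v.2.1) : ZMod 3 × ZMod 3 × ZMod 3) := rfl

instance : LieAlgebra (ZMod 3) H where
  lie_smul c u v := by
    refine Prod.ext ?_ (Prod.ext ?_ ?_)
    · change (0 : ZMod 3) = c * 0
      simp
    · change (0 : ZMod 3) = c * 0
      simp
    · change (c * v.1) * u.2.1 - u.1 * (c * v.2.1) = c * (v.1 * u.2.1 - u.1 * v.2.1)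
      ring

theorem lie_lie (u v w : H) : ⁅u, ⁅v, w⁆⁆ = 0 := by
  refine Prod.ext rfl (Prod.ext rfl ?_)
  change (0 : ZMod 3) * u.2.1 - u.1 * 0 = 0
  ring

/-- The 3-map of the Heisenberg Lie algebra: (a, b, c) goes to (0, 0, c). -/
def f (u : H) : H := ((0, 0, u.2.2) : ZMod 3 × ZMod 3 × ZMod 3)

/-- The three standard generators. -/
def hx : H := ((1, 0, 0) : ZMod 3 × ZMod 3 × ZMod 3)
def hy : H := ((0, 1, 0) : ZMod 3 × ZMod 3 × ZMod 3)
def hz : H := ((0, 0, 1) : ZMod 3 × ZMod 3 × ZMod 3)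

theorem f_smul (a : ZMod 3) (x : H) : f (a • x) = a ^ 3 • f x := by
  refine Prod.ext ?_ (Prod.ext ?_ ?_)
  · change (0 : ZMod 3) = a ^ 3 * 0
    simp
  · change (0 : ZMod 3) = a ^ 3 * 0
    simp
  · change a * x.2.2 = a ^ 3 * x.2.2
    rw [ZMod.pow_card]

theorem f_lie (x y : H) : ⁅f x, y⁆ = 0 := by
  refine Prod.ext rfl (Prod.ext rfl ?_)
  change y.1 * 0 - 0 * y.2.1 = 0
  ring

theorem f_ad (x y : H) : (LieAlgebra.ad (ZMod 3) H x ^ 3) y = ⁅f x, y⁆ := by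
  rw [f_lie, pow_succ, pow_succ, pow_one]
  simp only [Module.End.mul_apply, LieAlgebra.ad_apply]
  exact lie_lie _ _ _

theorem f_add (x y : H) : f (x + y) = f x + f y := by
  refine Prod.ext ?_ (Prod.ext ?_ ?_)
  · change (0 : ZMod 3) = 0 + 0
    simp
  · change (0 : ZMod 3) = 0 + 0
    simp
  · rfl

/-- cube of a sum in characteristic three when double commutators vanish -/
theorem cube_add {A : Type*} [Ring A] (h3 : ∀ a : A, (3 : ℕ) • a = 0) (x y : A)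
    (h1 : x * (x * y - y * x) - (x * y - y * x) * x = 0)
    (h2 : y * (y * x - x * y) - (y * x - x * y) * y = 0) :
    (x + y) ^ 3 - x ^ 3 - y ^ 3 = 0 := by
  have e : (x + y) ^ 3 - x ^ 3 - y ^ 3 =
      (x * (x * y - y * x) - (x * y - y * x) * x) + (y * (y * x - x * y) - (y * x - x * y) * y)
        + ((3 : ℕ) • (x * y * x) + (3 : ℕ) • (y * x * y)) := by
    noncomm_ring
  rw [e, h1, h2, h3, h3]
  simp

abbrev U : Type := UniversalEnvelopingAlgebra (ZMod 3) H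

/-- The defining relation of the restricted enveloping algebra. -/
abbrev rel : U → U → Prop := fun a b : UniversalEnvelopingAlgebra (ZMod 3) H =>
        ∃ x : H, a = UniversalEnvelopingAlgebra.ι (ZMod 3) x ^ 3 ∧
          b = UniversalEnvelopingAlgebra.ι (ZMod 3) (f x)

abbrev u : Type := RingQuot rel

theorem three_nsmul_zero {A : Type*} [Ring A] [Algebra (ZMod 3) A] (a : A) : (3 : ℕ) • a = 0 := by
  have h : (3 : ZMod 3) • a = 0 := by
    rw [show (3 : ZMod 3) = 0 from rfl, zero_smul]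
  rw [← h, show (3 : ZMod 3) = ((3 : ℕ) : ZMod 3) from rfl, Nat.cast_smul_eq_nsmul]

theorem iota_comm (x y : H) : UniversalEnvelopingAlgebra.ι (ZMod 3) ⁅x, y⁆ =
    UniversalEnvelopingAlgebra.ι (ZMod 3) x * UniversalEnvelopingAlgebra.ι (ZMod 3) y -
    UniversalEnvelopingAlgebra.ι (ZMod 3) y * UniversalEnvelopingAlgebra.ι (ZMod 3) x := by
  rw [LieHom.map_lie, Ring.lie_def]

theorem jac (x y : H) :
      UniversalEnvelopingAlgebra.ι (ZMod 3) (f (x + y)) - UniversalEnvelopingAlgebra.ι (ZMod 3) (f x)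
        - UniversalEnvelopingAlgebra.ι (ZMod 3) (f y)
      = (UniversalEnvelopingAlgebra.ι (ZMod 3) x + UniversalEnvelopingAlgebra.ι (ZMod 3) y) ^ 3
        - UniversalEnvelopingAlgebra.ι (ZMod 3) x ^ 3 - UniversalEnvelopingAlgebra.ι (ZMod 3) y ^ 3 := by
  rw [cube_add three_nsmul_zero, f_add, map_add]
  · abel
  · rw [← iota_comm, ← iota_comm, lie_lie, map_zero]
  · rw [← iota_comm, ← iota_comm, lie_lie, map_zero]

end Pool.Agent.X193.CB
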